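import Pool.Agent.Lib.helper10.Kit

namespace Pool.Agent.Results.MP_563097_lc.CoNPComplete

open Pool.Agent.Cx Pool.Agent.Cis Polynomial

/-- distinct vertices of `S` have disjoint open neighbourhoods -/
def OpenPacking {V : Type} (G : SimpleGraph V) (S : Set V) : Prop :=
  ∀ u ∈ S, ∀ v ∈ S, u ≠ v → G.neighborSet u ∩ G.neighborSet v = ∅

/-- all maximal open packings have the same cardinality -/
def Uniform {V : Type} (G : SimpleGraph V) : Prop :=
  ∀ S T : Set V, Maximal (OpenPacking G) S → Maximal (OpenPacking G) T → S.ncard = T.ncard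

/-- `M` is the adjacency matrix of a graph in the class -/
def Rec (M : List (List Bool)) : Prop := IsGraph M ∧ Uniform (graphOf M)

section
variable {V : Type} {G : SimpleGraph V}

def star (G : SimpleGraph V) : SimpleGraph V where
  Adj u v := u ≠ v ∧ ∃ w, G.Adj u w ∧ G.Adj v w
  symm := ⟨fun _ _ ⟨a, w, b, c⟩ => ⟨a.symm, w, c, b⟩⟩
  loopless := ⟨fun _ h => h.1 rfl⟩

lemma max_iff {S : Set V} : Maximal (OpenPacking G) S ↔
    (∀ u ∈ S, ∀ v ∈ S, ¬ (u ≠ v ∧ ∃ w, G.Adj u w ∧ G.Adj v w)) ∧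
      ∀ v ∉ S, ∃ s ∈ S, v ≠ s ∧ ∃ w, G.Adj v w ∧ G.Adj s w := by
  have : OpenPacking G = (star G).IsIndepSet := by
    ext S
    simp only [OpenPacking, SimpleGraph.IsIndepSet, Set.Pairwise, star, Set.eq_empty_iff_forall_notMem,
      Set.mem_inter_iff, SimpleGraph.mem_neighborSet]
    exact ⟨fun h u hu v hv e ⟨_, w, a⟩ => h u hu v hv e w a, fun h u hu v hv e w a =>
      h hu hv e ⟨e, w, a⟩⟩
  rw [this, maxI_iff]; rfl

end

def rel (n : ℕ) (K : List (List ℕ)) (p q : ℕ × ℕ × ℕ) : Prop :=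
  (p.1 = 0 ∧ q.1 = 2 ∧ p.2.1 = q.2.1 ∧ (p.2.2 = 0 ∨ q.2.2 ≠ 0)) ∨
  (p.1 = 0 ∧ q.1 = 3 ∧ p.2.1 = q.2.1 ∧ p.2.2 = q.2.2 ∧ p.2.2 ≠ 0) ∨
  (p.1 = 1 ∧ q.1 = 3 ∧ (q.2.2 = 0 ∨ K.length ≤ p.2.1 ∨ (q.2.1 < n ∧ min (ke K p.2.1 q.2.1) 2 = q.2.2)))

def adj (n : ℕ) (K : List (List ℕ)) (p q : ℕ × ℕ × ℕ) : Prop := rel n K p q ∨ rel n K q p

instance (n : ℕ) (K : List (List ℕ)) : DecidableRel (adj n K) := fun _ _ => by
  unfold adj rel; infer_instance

def cls (p : ℕ × ℕ × ℕ) : ℕ × ℕ := (p.1, if p.1 % 2 = 0 then p.2.1 else 0)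

section
variable {V : Type} {G : SimpleGraph V} {n N : ℕ} {K : List (List ℕ)} {f : V → ℕ × ℕ × ℕ}
  (h1 : ∀ a b, G.Adj a b ↔ adj n K (f a) (f b))
  (h2 : ∀ p, (∃ a, f a = p) ↔ p.1 < 4 ∧ p.2.1 < N ∧ p.2.2 < 3) (h3 : f.Injective)
  (hN : K.length < N) (hn : n < N)
include h1 h2 h3 hN hn

omit h3 hn in
lemma inj {S : Set V} (hS : Maximal (OpenPacking G) S) : Set.InjOn (fun a => cls (f a)) S := by
  intro a ha b hb e
  by_contra c
  have a1 := (h2 _).1 ⟨a, rfl⟩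
  have b1 := (h2 _).1 ⟨b, rfl⟩
  simp only [cls, Prod.mk.injEq] at e
  obtain ⟨w, hw⟩ := (h2 (if (f a).1 = 0 then (2, (f a).2.1, 1) else if (f a).1 = 1 then (3, 0, 0)
    else if (f a).1 = 2 then (0, (f a).2.1, 0) else (1, K.length, 0))).2 (by
      split_ifs <;> simp <;> omega)
  refine (max_iff.1 hS).1 a ha b hb ⟨c, w, ?_, ?_⟩ <;> simp only [h1, hw, adj, rel] <;>
    split_ifs at e ⊢ <;> simp <;> omega

omit h3 hN hn in
lemma hit {S : Set V} (hS : Maximal (OpenPacking G) S) (a : V) (ha : (f a).1 ≠ 1) :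
    ∃ s ∈ S, cls (f s) = cls (f a) := by
  have a1 := (h2 _).1 ⟨a, rfl⟩
  obtain ⟨w, hw⟩ := (h2 ((f a).1, (f a).2.1, 0)).2 (by simp; omega)
  by_cases c : w ∈ S
  · exact ⟨w, c, by simp [hw, cls]⟩
  obtain ⟨s, hs, -, z, z1, z2⟩ := (max_iff.1 hS).2 w c
  refine ⟨s, hs, ?_⟩
  simp only [h1, hw, adj, rel, cls, Prod.mk.injEq] at z1 z2 ⊢
  split_ifs <;> omega

omit h3 hn in
lemma card_eq {S T : Set V} (hS : Maximal (OpenPacking G) S) (hT : Maximal (OpenPacking G) T)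
    (s : ∃ a ∈ S, (f a).1 = 1) (t : ∃ a ∈ T, (f a).1 = 1) : S.ncard = T.ncard := by
  rw [← Set.InjOn.ncard_image (inj h1 h2 hN hS), ← Set.InjOn.ncard_image (inj h1 h2 hN hT)]
  have : ∀ {S T : Set V}, Maximal (OpenPacking G) T → (∃ a ∈ T, (f a).1 = 1) →
      (fun a => cls (f a)) '' S ⊆ (fun a => cls (f a)) '' T := by
    rintro S T hT ⟨b, b1, b2⟩ _ ⟨a, -, rfl⟩
    by_cases c : (f a).1 = 1
    · exact ⟨b, b1, by simp [cls, c, b2]⟩
    · exact hit h1 h2 hT a c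
  rw [(this hT t).antisymm (this hS s)]

omit h3 hn in
lemma unsat (hK : ¬ MatSat n K) {S : Set V} (hS : Maximal (OpenPacking G) S) :
    ∃ a ∈ S, (f a).1 = 1 := by
  classical
  by_contra c
  push Not at c
  refine hK ⟨fun y => decide (∃ s ∈ S, f s = (0, y, 1)), fun κ hκ => ?_⟩
  obtain ⟨j, hj, rfl⟩ := List.getElem_of_mem hκ
  obtain ⟨w, hw⟩ := (h2 (1, j, 0)).2 (by simp; omega)
  obtain ⟨s, hs, -, z, z1, z2⟩ := (max_iff.1 hS).2 w fun e => c w e (by simp [hw])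
  have := c s hs
  simp only [h1, hw, adj, rel, ke, List.getD_eq_getElem _ _ hj] at z1 z2
  refine ⟨(f s).2.1, by omega, by rw [show (f s).2.1 = (f z).2.1 by omega]; omega, ?_⟩
  rw [decide_eq_true_eq]
  constructor
  · exact fun e => ⟨s, hs, by
      rw [show (f s).2.1 = (f z).2.1 by omega] at e
      exact Prod.ext (by simp; omega) (Prod.ext rfl (by simp; omega))⟩
  · rintro ⟨t, t1, t2⟩
    obtain rfl : t = s := inj h1 h2 hN hS t1 hs (by
      simp only [t2, cls, Prod.mk.injEq]; split_ifs <;> omega)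
    have : (f t).2.2 = 1 := by rw [t2]
    rw [show (f t).2.1 = (f z).2.1 by omega]; omega

lemma sat [Finite V] (h0 : 0 < n) (hK : MatSat n K) : ¬ Uniform G := fun h => by
  obtain ⟨τ, hτ⟩ := hK
  let t : ℕ → ℕ := fun y => if τ y then 1 else 2
  have t1 : ∀ y, t y = 1 ∨ t y = 2 := fun y => by simp only [t]; split_ifs <;> simp
  obtain ⟨S, s1, hS⟩ := ext_max (P := OpenPacking G) (A := {s | ∃ y, f s = (0, y, t y)}) (by
    rintro a ⟨x, hx⟩ b ⟨y, hy⟩ e
    have : x ≠ y := fun c => e (h3 (by rw [hx, hy, c]))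
    refine Set.eq_empty_iff_forall_notMem.2 fun z ⟨z1, z2⟩ => ?_
    simp only [SimpleGraph.mem_neighborSet, h1, hx, hy, adj, rel] at z1 z2
    omega)
  obtain ⟨u, hu⟩ := (h2 (1, 0, 0)).2 (by simp; omega)
  obtain ⟨T, s2, hT⟩ := ext_max (P := OpenPacking G) (A := {u}) (by simp [OpenPacking])
  have s3 : ∀ a ∈ S, (f a).1 ≠ 1 := fun a ha e => by
    obtain ⟨y, y1, y2⟩ : ∃ y < n, K.length ≤ (f a).2.1 ∨ min (ke K (f a).2.1 y) 2 = t y := by
      by_cases c : (f a).2.1 < K.length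
      · obtain ⟨y, hy, b1, b2⟩ := hτ _ (List.getElem_mem c)
        refine ⟨y, hy, Or.inr ?_⟩
        simp only [ke, List.getD_eq_getElem _ _ c, t, ← b2]
        split_ifs <;> omega
      · exact ⟨0, h0, Or.inl (by omega)⟩
    have := t1 y
    obtain ⟨s, hs⟩ := (h2 (0, y, t y)).2 (by simp; omega)
    obtain ⟨z, hz⟩ := (h2 (3, y, t y)).2 (by simp; omega)
    refine (max_iff.1 hS).1 a ha s (s1 ⟨y, hs⟩) ⟨fun c => ?_, z, ?_, ?_⟩
    · rw [c, hs] at e; simp at e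
    all_goals simp only [h1, hs, hz, adj, rel, e]; simp; omega
  have e := h S T hS hT
  rw [← Set.InjOn.ncard_image (inj h1 h2 hN hS), ← Set.InjOn.ncard_image (inj h1 h2 hN hT)] at e
  refine (Set.ncard_lt_ncard ⟨?_, fun c => ?_⟩).ne e
  · rintro _ ⟨a, ha, rfl⟩
    exact hit h1 h2 hT a (s3 a ha)
  · obtain ⟨a, ha, c⟩ := c ⟨u, s2 rfl, rfl⟩
    exact s3 a ha (by simpa [hu, cls] using congrArg Prod.fst c)

end

def verts (I : ℕ × List (List ℕ)) : List (ℕ × ℕ × ℕ) :=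
  List.range 4 ×ˢ List.range (I.1 + I.2.length + 1) ×ˢ List.range 3

def red (I : ℕ × List (List ℕ)) : List (List Bool) :=
  mat (verts I) fun p q => decide (adj I.1 I.2 p q)

lemma red_pt : PT red := by
  unfold red verts
  refine PT.mat (by fun_prop) (PP.decide ?_)
  unfold adj rel ke; fun_prop

lemma hard : Hard fun M => ¬ Rec M := by
  refine Hard.of_matSat red_pt fun n K h0 => ?_
  obtain ⟨g, f, h1, h2, h3, -⟩ := graph_kit (verts (n, K)) (adj n K) (fun _ _ => Or.symm)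
    (fun p => by unfold adj rel; omega)
    (List.nodup_range.product (List.nodup_range.product List.nodup_range)) (M := red (n, K)) rfl
  have h2' : ∀ p, (∃ a, f a = p) ↔ p.1 < 4 ∧ p.2.1 < n + K.length + 1 ∧ p.2.2 < 3 := by
    rintro ⟨a, b, c⟩; simp [h2, verts]
  refine ⟨fun h a => sat h1 h2' h3 (by omega) (by omega) h0 h a.2, fun h => ?_⟩
  by_contra c
  exact h ⟨g, fun S T hS hT => card_eq h1 h2' (by omega) hS hT (unsat h1 h2' (by omega) c hS)
    (unsat h1 h2' (by omega) c hT)⟩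

def cn (M : List (List Bool)) (i j : ℕ) : Prop :=
  i ≠ j ∧ ∃ k < M.length, ent M i k = true ∧ ent M j k = true

def mP (M : List (List Bool)) (w : List Bool) : Prop :=
  (¬ ∃ i < M.length, ∃ j < M.length, w.getD i false = true ∧ w.getD j false = true ∧ cn M i j) ∧
    ¬ ∃ i < M.length, ¬ w.getD i false = true ∧ ¬ ∃ j < M.length, w.getD j false = true ∧ cn M i j

lemma mP_iff {M : List (List Bool)} (h : IsGraph M) (w : List Bool) :
    Maximal (OpenPacking (graphOf M)) (vset _ w) ↔ mP M w := by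
  simp only [max_iff, adj_iff h, vset, Set.mem_ofPred_eq, Fin.forall_iff, Fin.exists_iff, mP, cn,
    exists_prop, ne_eq, Fin.ext_iff, not_exists, not_and, not_forall, not_not]
  exact and_congr ⟨fun g i hi j hj a => g i hi a j hj, fun g i hi a j hj => g i hi j hj a⟩ Iff.rfl

def ver (z : List (List Bool) × List Bool × List Bool) : Prop :=
  ¬ IsGraph z.1 ∨ (mP z.1 z.2.1 ∧ mP z.1 z.2.2 ∧ cnt z.1.length z.2.1 ≠ cnt z.1.length z.2.2)

theorem result : CoNPComplete (Lang Rec) := by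
  classical
  refine ⟨inCoNP_Lang (V := fun z => decide (ver z)) (PP.decide ?_) (8 * X + 3) (fun M hM => ?_)
    fun M z h g => ?_, hard.coNPHard⟩
  · have := pp_isGraph
    unfold ver mP cn; fun_prop
  · by_cases g : IsGraph M
    · simp only [Rec, g, true_and, Uniform, not_forall] at hM
      obtain ⟨C, S, a1, a2, a3⟩ := hM
      obtain ⟨c, c1, rfl⟩ := exists_vset C
      obtain ⟨s, s1, rfl⟩ := exists_vset S
      have := length_lt_size M
      exact ⟨(c, s), by simp; omega, decide_eq_true (Or.inr ⟨(mP_iff g c).1 a1, (mP_iff g s).1 a2,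
        by simpa [ncard_vset] using a3⟩)⟩
    · exact ⟨([], []), by simp, by simp [ver, g]⟩
  · obtain ⟨a, b, c⟩ := (of_decide_eq_true h).resolve_left (not_not.2 g.1)
    exact c (by simpa [ncard_vset] using g.2 _ _ ((mP_iff g.1 _).2 a) ((mP_iff g.1 _).2 b))

end Pool.Agent.Results.MP_563097_lc.CoNPComplete
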